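import Pool.Agent.Lib.MP_7f333f_an.System

set_option autoImplicit false

/-!
The system of spikes of a linear representation: the base norm contains, for each point `p`, the
sublinear function `f p + h p`, where `h p` is a sublinear function on the space of the
representation. Every isometry of the spike norm is the action of an element of the group.
-/

namespace Pool.Agent.Comb7f333f.LPart

open Filter Topology

/-- Lower bounds for the spike seminorm by sublinear functions. -/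
theorem sublin_le_spikeNorm {V : Type*} [AddCommGroup V] [Module ℝ V] (q : Seminorm ℝ V)
    {ι : Type*} (s : ι → V) (ψ : V → ℝ) (hadd : ∀ x y, ψ (x + y) ≤ ψ x + ψ y)
    (hsm : ∀ (c : ℝ) x, 0 ≤ c → ψ (c • x) = c * ψ x) (hq : ∀ x, ψ x ≤ q x)
    (hs : ∀ i, ψ (s i) ≤ 1 ∧ ψ (-s i) ≤ 1) (x : V) : ψ x ≤ spikeNorm q s x := by
  classical
  have h0 : ψ 0 ≤ 0 := by
    have := hsm 0 0 le_rfl
    rw [zero_smul, zero_mul] at this
    exact this.le
  have hsum : ∀ (t : Finset ι) (f : ι → V), ψ (∑ i ∈ t, f i) ≤ ∑ i ∈ t, ψ (f i) := by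
    intro t f
    exact Finset.le_sum_of_subadditive ψ h0 hadd t f
  refine le_ciInf fun l => ?_
  unfold spikeVal
  have h1 : x = (x - Finsupp.linearCombination ℝ s l) + Finsupp.linearCombination ℝ s l := by
    simp
  have h2 : ψ (Finsupp.linearCombination ℝ s l) ≤ l1 l := by
    rw [Finsupp.linearCombination_apply, Finsupp.sum, l1, Finsupp.sum]
    refine (hsum _ _).trans (Finset.sum_le_sum fun i _ => ?_)
    rcases le_total 0 (l i) with hi | hi
    · rw [hsm _ _ hi, abs_of_nonneg hi]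
      exact mul_le_of_le_one_right hi (hs i).1
    · have h3 : l i • s i = (-l i) • (-s i) := by rw [smul_neg, neg_smul, neg_neg]
      rw [h3, hsm _ _ (by linarith), abs_of_nonpos hi]
      exact mul_le_of_le_one_right (by linarith) (hs i).2
  have h3 := hadd (x - Finsupp.linearCombination ℝ s l) (Finsupp.linearCombination ℝ s l)
  rw [← h1] at h3
  have h4 := hq (x - Finsupp.linearCombination ℝ s l)
  linarith

/-- The data needed for the construction. -/
structure HData (G : Type*) [Group G] (P : Type*) [MulAction G P] (X : Type*) [AddCommGroup X]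
    [Module ℝ X] where
  z : G
  hz : ∀ g, g * z = z * g
  hzz : z * z = 1
  hfree : ∀ p : P, z • p ≠ p
  hinf : Infinite P
  x : ℕ → P
  hx : Function.Surjective x
  hclosed : ∀ π : Equiv.Perm P, (∀ F : Finset P, ∃ g : G, ∀ p ∈ F, g • p = π p) →
    ∃ g : G, ∀ p, g • p = π p
  qZ : Seminorm ℝ X
  qZ_def : ∀ y, qZ y = 0 → y = 0
  ρZ : G →* (X →ₗ[ℝ] X)
  hρq : ∀ g y, qZ (ρZ g y) = qZ y
  hρz : ∀ y, ρZ z y = - y
  hρc : ∀ (y : X) (ε : ℝ), 0 < ε → ∃ F : Finset P, ∀ g : G, (∀ p ∈ F, g • p = p) →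
    qZ (ρZ g y - y) < ε
  h : P → X → ℝ
  h_add : ∀ p y y', h p (y + y') ≤ h p y + h p y'
  h_smul : ∀ p (c : ℝ) y, 0 ≤ c → h p (c • y) = c * h p y
  h_nonneg : ∀ p y, 0 ≤ h p y
  h_le : ∀ p y, h p y ≤ qZ y / 100
  h_equiv : ∀ (g : G) p y, h (g • p) (ρZ g y) = h p y
  h_inf : ∀ p, {p' : P | ∀ y, h p' y = h p y}.Infinite
  h_sep : ∀ y y', (∀ p, h p y = h p y') → (∀ p, h p (-y) = h p (-y')) → y = y'

namespace HData

variable {G : Type*} [Group G] {P : Type*} [MulAction G P] {X : Type*} [AddCommGroup X]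
    [Module ℝ X] (D : HData G P X)

/-- The index set of the coordinates. -/
abbrev I : Type _ := P ⊕ Tup G D.x

theorem freeI (i : D.I) : D.z • i ≠ i := by
  cases i with
  | inl p =>
    intro h
    rw [Sum.smul_inl] at h
    exact D.hfree p (Sum.inl_injective h)
  | inr t =>
    intro h
    rw [Sum.smul_inr] at h
    exact Tup.free D.z D.hfree t (Sum.inr_injective h)

/-- The space. -/
abbrev V : Type _ := X × oddC0 D.I D.z

/-- The sublinear function of a point. -/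
noncomputable def m (p : P) (v : D.V) : ℝ := v.2.1 (Sum.inl p) + D.h p v.1

theorem h_zero (p : P) : D.h p 0 = 0 := by
  have := D.h_smul p 0 0 le_rfl
  rwa [zero_smul, zero_mul] at this

theorem h_z (p : P) (y : X) : D.h (D.z • p) y = D.h p (-y) := by
  have := D.h_equiv D.z p (-y)
  rwa [D.hρz, neg_neg] at this

theorem m_add (p : P) (v w : D.V) : D.m p (v + w) ≤ D.m p v + D.m p w := by
  have := D.h_add p v.1 w.1
  show (v.2.1 (Sum.inl p) + w.2.1 (Sum.inl p)) + D.h p (v.1 + w.1) ≤ _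
  unfold m
  linarith

theorem m_smul (p : P) (c : ℝ) (v : D.V) (hc : 0 ≤ c) : D.m p (c • v) = c * D.m p v := by
  have := D.h_smul p c v.1 hc
  show c * v.2.1 (Sum.inl p) + D.h p (c • v.1) = _
  unfold m
  rw [this]
  ring

theorem m_z (p : P) (v : D.V) : D.m (D.z • p) v = D.m p (-v) := by
  have h1 : v.2.1 (Sum.inl (D.z • p)) = - v.2.1 (Sum.inl p) := v.2.2.2 (Sum.inl p)
  show v.2.1 (Sum.inl (D.z • p)) + D.h (D.z • p) v.1 = - v.2.1 (Sum.inl p) + D.h p (-v.1)
  rw [h1, D.h_z]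

theorem m_le (p : P) (v : D.V) : D.m p v ≤ supC D.I D.z v.2 + D.qZ v.1 / 100 := by
  have h1 := (le_abs_self _).trans (le_supC v.2 (Sum.inl p))
  have h2 := D.h_le p v.1
  unfold m
  linarith

theorem m_bdd (v : D.V) : BddAbove (Set.range fun p => D.m p v) :=
  ⟨_, by rintro _ ⟨p, rfl⟩; exact D.m_le p v⟩

theorem m_sum_nonneg (p : P) (v : D.V) : 0 ≤ D.m p v + D.m (D.z • p) v := by
  have h1 := D.h_nonneg p v.1
  have h2 := D.h_nonneg p (-v.1)
  rw [D.m_z]
  show 0 ≤ (v.2.1 (Sum.inl p) + D.h p v.1) + (- v.2.1 (Sum.inl p) + D.h p (-v.1))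
  linarith

/-- The supremum of the sublinear functions. -/
noncomputable def M (v : D.V) : ℝ := ⨆ p, D.m p v

theorem m_le_M (p : P) (v : D.V) : D.m p v ≤ D.M v := le_ciSup (D.m_bdd v) p

include D in
theorem nonemptyP : Nonempty P := ⟨D.x 0⟩

theorem M_le (v : D.V) (c : ℝ) (h : ∀ p, D.m p v ≤ c) : D.M v ≤ c := by
  have := D.nonemptyP
  exact ciSup_le h

theorem M_smul_le (c : ℝ) (v : D.V) : D.M (c • v) ≤ |c| * D.M v := by
  refine D.M_le _ _ fun p => ?_
  rcases le_total 0 c with hc | hc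
  · rw [D.m_smul _ _ _ hc, abs_of_nonneg hc]
    exact mul_le_mul_of_nonneg_left (D.m_le_M p v) hc
  · have h1 : c • v = (-c) • (-v) := by rw [smul_neg, neg_smul, neg_neg]
    rw [h1, D.m_smul _ _ _ (by linarith), abs_of_nonpos hc, ← D.m_z]
    exact mul_le_mul_of_nonneg_left (D.m_le_M _ v) (by linarith)

theorem M_zero : D.M 0 = 0 := by
  have h1 : ∀ p, D.m p 0 = 0 := by
    intro p
    show (0 : ℝ) + D.h p 0 = 0
    rw [D.h_zero, add_zero]
  refine le_antisymm (D.M_le _ _ fun p => (h1 p).le) ?_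
  obtain ⟨p⟩ := D.nonemptyP
  have := D.m_le_M p 0
  rwa [h1] at this

/-- The supremum of the sublinear functions, as a seminorm. -/
noncomputable def MN : Seminorm ℝ D.V :=
  Seminorm.ofSMulLE D.M D.M_zero
    (fun v w => D.M_le _ _ fun p => (D.m_add p v w).trans
      (add_le_add (D.m_le_M p v) (D.m_le_M p w)))
    (fun c v => D.M_smul_le c v)

theorem MN_apply (v : D.V) : D.MN v = D.M v := rfl

/-- The base norm. -/
noncomputable def q : Seminorm ℝ D.V :=
  ((D.qZ.comp (LinearMap.fst ℝ X (oddC0 D.I D.z))) ⊔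
    ((supC D.I D.z).comp (LinearMap.snd ℝ X (oddC0 D.I D.z)))) ⊔ D.MN

theorem q_apply (v : D.V) : D.q v = max (max (D.qZ v.1) (supC D.I D.z v.2)) (D.M v) := rfl

theorem q_le_iff (v : D.V) (c : ℝ) :
    D.q v ≤ c ↔ D.qZ v.1 ≤ c ∧ supC D.I D.z v.2 ≤ c ∧ ∀ p, D.m p v ≤ c := by
  rw [q_apply, max_le_iff, max_le_iff, and_assoc]
  constructor
  · rintro ⟨h1, h2, h3⟩
    exact ⟨h1, h2, fun p => (D.m_le_M p v).trans h3⟩
  · rintro ⟨h1, h2, h3⟩
    exact ⟨h1, h2, D.M_le v c h3⟩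

theorem qZ_le_q (v : D.V) : D.qZ v.1 ≤ D.q v := ((D.q_le_iff v _).mp le_rfl).1

theorem supC_le_q (v : D.V) : supC D.I D.z v.2 ≤ D.q v := ((D.q_le_iff v _).mp le_rfl).2.1

theorem m_le_q (p : P) (v : D.V) : D.m p v ≤ D.q v := ((D.q_le_iff v _).mp le_rfl).2.2 p

theorem q_le_add (v : D.V) : D.q v ≤ 2 * D.qZ v.1 + supC D.I D.z v.2 := by
  have h1 : 0 ≤ D.qZ v.1 := apply_nonneg _ _
  have h2 : 0 ≤ supC D.I D.z v.2 := apply_nonneg _ _
  rw [D.q_le_iff]
  refine ⟨by linarith, by linarith, fun p => ?_⟩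
  have := D.m_le p v
  linarith

/-- The coordinate functionals. -/
noncomputable def f (i : D.I) : D.V →ₗ[ℝ] ℝ where
  toFun v := v.2.1 i
  map_add' _ _ := rfl
  map_smul' _ _ := rfl

theorem m_eq (p : P) (v : D.V) : D.m p v = D.f (Sum.inl p) v + D.h p v.1 := rfl

/-- The bumps in the space. -/
noncomputable def a (i : D.I) : D.V := (0, bmp D.z D.hzz i)

theorem f_le (i : D.I) (v : D.V) : |D.f i v| ≤ D.q v := (le_supC v.2 i).trans (D.supC_le_q v)

theorem m_inr (p : P) (f : oddC0 D.I D.z) : D.m p ((0 : X), f) = f.1 (Sum.inl p) := by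
  show f.1 (Sum.inl p) + D.h p 0 = _
  rw [D.h_zero, add_zero]

theorem q_inr_le (f : oddC0 D.I D.z) : D.q ((0 : X), f) ≤ supC D.I D.z f := by
  have h0 : 0 ≤ supC D.I D.z f := apply_nonneg _ _
  rw [D.q_le_iff]
  refine ⟨?_, le_rfl, fun p => ?_⟩
  · show D.qZ 0 ≤ _
    rw [map_zero]; exact h0
  · rw [D.m_inr]
    exact (le_abs_self _).trans (le_supC f _)

theorem q_a (i : D.I) : D.q (D.a i) ≤ 2 :=
  (D.q_inr_le _).trans (supC_bmp_le D.hzz D.freeI i)

theorem f_a_self (i : D.I) : D.f i (D.a i) = 2 := bmp_self D.hzz D.freeI i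

theorem f_a_ne (i j : D.I) (h1 : j ≠ i) (h2 : j ≠ D.z • i) : D.f i (D.a j) = 0 := by
  refine bmp_ne D.hzz j i h1.symm fun h => h2 ?_
  rw [h, smul_smul, D.hzz, one_smul]

theorem a_z (i : D.I) : D.a (D.z • i) = - D.a i := by
  show ((0 : X), bmp D.z D.hzz (D.z • i)) = - ((0 : X), bmp D.z D.hzz i)
  rw [bmp_z, Prod.neg_mk, neg_zero]

/-- The action of the group. -/
noncomputable def ρ : G →* (D.V →ₗ[ℝ] D.V) where
  toFun g := LinearMap.prodMap (D.ρZ g) (actC D.hz g)
  map_one' := by rw [map_one, map_one]; rfl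
  map_mul' g h := by rw [map_mul, map_mul]; rfl

theorem ρ_apply (g : G) (v : D.V) : D.ρ g v = (D.ρZ g v.1, actC D.hz g v.2) := rfl

theorem ρ_a (g : G) (i : D.I) : D.ρ g (D.a i) = D.a (g • i) := by
  show (D.ρZ g 0, actC D.hz g (bmp D.z D.hzz i)) = ((0 : X), bmp D.z D.hzz (g • i))
  rw [map_zero, actC_bmp]

theorem m_ρ (g : G) (p : P) (v : D.V) : D.m (g • p) (D.ρ g v) = D.m p v := by
  have h1 : (actC D.hz g v.2).1 (Sum.inl (g • p)) = v.2.1 (Sum.inl p) := by
    rw [actC_apply, Sum.smul_inl, inv_smul_smul]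
  show (actC D.hz g v.2).1 (Sum.inl (g • p)) + D.h (g • p) (D.ρZ g v.1) = _
  rw [h1, D.h_equiv]
  rfl

theorem M_ρ (g : G) (v : D.V) : D.M (D.ρ g v) = D.M v := by
  refine le_antisymm (D.M_le _ _ fun p => ?_) (D.M_le _ _ fun p => ?_)
  · have h1 := D.m_ρ g (g⁻¹ • p) v
    rw [smul_inv_smul] at h1
    rw [h1]
    exact D.m_le_M _ v
  · rw [← D.m_ρ g p v]
    exact D.m_le_M _ _

theorem q_ρ (g : G) (v : D.V) : D.q (D.ρ g v) = D.q v := by
  rw [q_apply, q_apply, D.M_ρ, ρ_apply]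
  show max (max (D.qZ (D.ρZ g v.1)) (supC D.I D.z (actC D.hz g v.2))) _ = _
  rw [D.hρq, supC_actC]

theorem q_def (v : D.V) (h : D.q v = 0) : v = 0 := by
  have h1 := (D.q_le_iff v 0).mp h.le
  have h2 : v.1 = 0 := D.qZ_def _ (le_antisymm h1.1 (apply_nonneg _ _))
  have h3 : v.2 = 0 := by
    apply Subtype.ext
    funext i
    have := (le_supC v.2 i).trans h1.2.1
    exact abs_nonpos_iff.mp this
  exact Prod.ext h2 h3

/-- The values of the coordinates after the addition of a multiple of a bump. -/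
theorem f_add_a (i j : D.I) (v : D.V) (c : ℝ) :
    (j = i ∧ D.f j (v + c • D.a i) = D.f j v + 2 * c) ∨
    (j = D.z • i ∧ D.f j (v + c • D.a i) = D.f j v - 2 * c) ∨
    (j ≠ i ∧ j ≠ D.z • i ∧ D.f j (v + c • D.a i) = D.f j v) := by
  by_cases h1 : j = i
  · left
    refine ⟨h1, ?_⟩
    rw [h1, map_add, map_smul, D.f_a_self, smul_eq_mul]
    ring
  by_cases h2 : j = D.z • i
  · right; left
    refine ⟨h2, ?_⟩
    have h3 : D.f (D.z • i) (D.a i) = -2 := by
      have h4 : D.a i = - D.a (D.z • i) := by rw [D.a_z, neg_neg]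
      rw [h4, map_neg, D.f_a_self]
    rw [h2, map_add, map_smul, h3, smul_eq_mul]
    ring
  · right; right
    refine ⟨h1, h2, ?_⟩
    have h3 : D.f j (D.a i) = 0 := by
      refine D.f_a_ne _ _ (Ne.symm h1) fun h => h2 ?_
      rw [h, smul_smul, D.hzz, one_smul]
    rw [map_add, map_smul, h3, smul_zero, add_zero]

theorem far (v : D.V) (hv : D.q v ≤ 1) : ∃ p : P,
    D.q (v + (1 / 4 : ℝ) • D.a (Sum.inl p)) ≤ 1 ∧
      D.q (v - (1 / 4 : ℝ) • D.a (Sum.inl p)) ≤ 1 := by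
  have hinf := D.hinf
  obtain ⟨h1, h2, h3⟩ := (D.q_le_iff v 1).mp hv
  have ht : Tendsto (fun i => |v.2.1 i|) cofinite (𝓝 0) := by simpa using v.2.2.1.abs
  have hev := ht.eventually (gt_mem_nhds (show (0 : ℝ) < 1 / 4 by norm_num))
  have hev2 : ∀ᶠ p : P in cofinite, |v.2.1 (Sum.inl p)| < 1 / 4 :=
    Sum.inl_injective.tendsto_cofinite.eventually hev
  obtain ⟨p, hp⟩ := hev2.exists
  have hpp := abs_lt.mp (show |D.f (Sum.inl p) v| < 1 / 4 from hp)
  have hpz : D.f (D.z • Sum.inl p) v = - D.f (Sum.inl p) v := v.2.2.2 (Sum.inl p)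
  have hval : ∀ c : ℝ, |c| ≤ 1 / 4 → D.q (v + c • D.a (Sum.inl p)) ≤ 1 := by
    intro c hc
    have hcc := abs_le.mp hc
    rw [q_le_iff]
    refine ⟨?_, ?_, ?_⟩
    · show D.qZ (v.1 + c • (0 : X)) ≤ 1
      rw [smul_zero, add_zero]; exact h1
    · refine supC_le _ _ (by norm_num) fun i => ?_
      show |D.f i (v + c • D.a (Sum.inl p))| ≤ 1
      rcases D.f_add_a (Sum.inl p) i v c with ⟨e, he⟩ | ⟨e, he⟩ | ⟨-, -, he⟩
      · rw [he, e, abs_le]; constructor <;> linarith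
      · rw [he, e, hpz, abs_le]; constructor <;> linarith
      · rw [he]; exact (le_supC v.2 i).trans h2
    · intro p'
      have e1 : D.h p' (v + c • D.a (Sum.inl p)).1 = D.h p' v.1 := by
        show D.h p' (v.1 + c • (0 : X)) = _
        rw [smul_zero, add_zero]
      have e2 := D.h_le p' v.1
      rw [D.m_eq, e1]
      rcases D.f_add_a (Sum.inl p) (Sum.inl p') v c with ⟨e, he⟩ | ⟨e, he⟩ | ⟨-, -, he⟩
      · rw [he, e]; linarith
      · rw [he, e, hpz]; linarith
      · rw [he, ← D.m_eq]; exact h3 p'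
  refine ⟨p, hval (1 / 4) (by norm_num), ?_⟩
  have h5 := hval (-(1 / 4)) (by norm_num)
  have e : v - (1 / 4 : ℝ) • D.a (Sum.inl p) = v + (-(1 / 4) : ℝ) • D.a (Sum.inl p) := by
    module
  rw [e]
  exact h5

/-- The system of spikes. -/
noncomputable def S : SpikeSystem D.V P (Tup G D.x) where
  q := D.q
  q_def := D.q_def
  zP p := D.z • p
  zQ t := D.z • t
  zP_ne := D.hfree
  zQ_ne := Tup.free D.z D.hfree
  aP p := D.a (Sum.inl p)
  aQ t := D.a (Sum.inr t)
  fP p := D.f (Sum.inl p)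
  fQ t := D.f (Sum.inr t)
  aP_z p := D.a_z (Sum.inl p)
  aQ_z t := D.a_z (Sum.inr t)
  q_aP p := D.q_a _
  q_aQ t := D.q_a _
  fP_le p v := D.f_le _ v
  fQ_le t v := D.f_le _ v
  fP_aP_self p := D.f_a_self _
  fP_aP_ne p p' h1 h2 := D.f_a_ne _ _ (fun h => h1 (Sum.inl_injective h))
    (fun h => h2 (Sum.inl_injective h))
  fP_aQ p t := D.f_a_ne _ _ (by simp) (by rw [Sum.smul_inl]; simp)
  fQ_aP t p := D.f_a_ne _ _ (by simp) (by rw [Sum.smul_inr]; simp)
  fQ_aQ_self t := D.f_a_self _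
  fQ_aQ_ne t t' h1 h2 := D.f_a_ne _ _ (fun h => h1 (Sum.inr_injective h))
    (fun h => h2 (Sum.inr_injective h))
  far := D.far
  len := Tup.len
  tup := Tup.ent
  len_z t := rfl
  tup_z t j _ := rfl
  zeta _ := 0
  zeta_z t := by rw [neg_zero]
  q_zeta t := by rw [map_zero]; exact (del_pos _).le
  fP_zeta p t := rfl
  fQ_zeta t' t := rfl

theorem equivar : Equivar D.S G D.ρ where
  q_ρ := D.q_ρ
  ρ_aP g p := D.ρ_a g (Sum.inl p)
  ρ_aQ g t := D.ρ_a g (Sum.inr t)
  ρ_zeta g t := by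
    show D.ρ g 0 = 0
    rw [map_zero]
  len_smul g t := rfl
  tup_smul g t j _ := rfl

theorem cod (π : Equiv.Perm P) (hπ : ∀ t : Tup G D.x, ∃ t' : Tup G D.x, t'.len = t.len ∧
    ∀ j ≤ t.len, t'.ent j = π (t.ent j)) : ∃ g : G, ∀ p, π p = g • p := by
  obtain ⟨g, hg⟩ := D.hclosed π (by
    intro F
    classical
    choose k hk using D.hx
    obtain ⟨n, hn⟩ : ∃ n, ∀ p ∈ F, k p ≤ n := ⟨F.sup k, fun p hp => Finset.le_sup hp⟩
    obtain ⟨t', h1, h2⟩ := hπ (Tup.base G D.x n)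
    obtain ⟨g, hg⟩ := Tup.exists_elt t'
    rw [Tup.base_len] at h1 h2
    rw [h1] at hg
    refine ⟨g, fun p hp => ?_⟩
    have h3 := h2 (k p) (hn p hp)
    rw [hg _ (hn p hp), Tup.base_ent n _ (hn p hp), hk] at h3
    exact h3)
  exact ⟨g, fun p => (hg p).symm⟩

/-! ### The key formula -/

theorem abs_f_v (p : P) (t : Tup G D.x) : |D.f (Sum.inl p) (D.S.v t)| ≤ 4 / 35 := by
  have h1 := D.S.fP_v p t
  have h2 := D.S.abs_fP_w p t
  rw [← h1] at h2
  exact h2

theorem v_fst (t : Tup G D.x) : (D.S.v t).1 = 0 := by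
  unfold SpikeSystem.v SpikeSystem.w
  show gam _ • (0 : X) + (∑ j ∈ Finset.range (D.S.len t + 1), cc j • D.S.aP (D.S.tup t j) +
    D.S.zeta t).1 = 0
  rw [smul_zero, zero_add]
  show (∑ j ∈ Finset.range (D.S.len t + 1), cc j • D.S.aP (D.S.tup t j)).1 + 0 = 0
  rw [add_zero, Prod.fst_sum]
  exact Finset.sum_eq_zero fun j _ => by
    show cc j • (0 : X) = 0
    rw [smul_zero]

theorem m_of_fst (p : P) (v : D.V) (h : v.1 = 0) : D.m p v = D.f (Sum.inl p) v := by
  rw [D.m_eq, h, D.h_zero, add_zero]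

/-- The lower bound. -/
theorem half_sum_le_N (i j : P) (h1 : j ≠ i) (h2 : j ≠ D.z • i) (v : D.V) :
    (D.m i v + D.m j v) / 2 ≤ D.S.N v := by
  have h3 : i ≠ D.z • j := by
    intro h
    apply h2
    rw [h, smul_smul, D.hzz, one_smul]
  have hneg : ∀ (p : P) (w : D.V), w.1 = 0 → D.m p (-w) = - D.f (Sum.inl p) w := by
    intro p w hw
    rw [D.m_of_fst p (-w) (by show -w.1 = 0; rw [hw, neg_zero]), map_neg]
  have hval : ∀ p p' : P, D.f (Sum.inl p) (D.a (Sum.inl p')) = 2 ∧ p' = p ∨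
      D.f (Sum.inl p) (D.a (Sum.inl p')) = -2 ∧ p' = D.z • p ∨
      D.f (Sum.inl p) (D.a (Sum.inl p')) = 0 ∧ p' ≠ p ∧ p' ≠ D.z • p := by
    intro p p'
    by_cases e1 : p' = p
    · left; rw [e1]; exact ⟨D.f_a_self _, rfl⟩
    by_cases e2 : p' = D.z • p
    · right; left
      refine ⟨?_, e2⟩
      rw [e2]
      have e3 : D.a (Sum.inl (D.z • p)) = - D.a (Sum.inl p) := D.a_z (Sum.inl p)
      rw [e3, map_neg, D.f_a_self]
    · right; right
      refine ⟨D.S.fP_aP_ne p p' e1 e2, e1, e2⟩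
  refine sublin_le_spikeNorm D.S.q D.S.spk (fun v => (D.m i v + D.m j v) / 2) ?_ ?_ ?_ ?_ v
  · intro x y
    have := D.m_add i x y
    have := D.m_add j x y
    linarith
  · intro c x hc
    simp only [D.m_smul _ _ _ hc]
    ring
  · intro x
    have := D.m_le_q i x
    have := D.m_le_q j x
    show _ ≤ D.q x
    linarith
  · intro s
    cases s with
    | pt p =>
      show (D.m i (D.a (Sum.inl p)) + D.m j (D.a (Sum.inl p))) / 2 ≤ 1 ∧
        (D.m i (-D.a (Sum.inl p)) + D.m j (-D.a (Sum.inl p))) / 2 ≤ 1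
      rw [D.m_of_fst i _ rfl, D.m_of_fst j _ rfl, hneg i _ rfl, hneg j _ rfl]
      rcases hval i p with ⟨e1, e1'⟩ | ⟨e1, e1'⟩ | ⟨e1, e1'⟩ <;>
      rcases hval j p with ⟨e2, e2'⟩ | ⟨e2, e2'⟩ | ⟨e2, e2'⟩ <;> rw [e1, e2]
      · exact absurd (e2'.symm.trans e1') h1
      · exact absurd (e1'.symm.trans e2') h3
      · norm_num
      · exact absurd (e2'.symm.trans e1') h2
      · exact absurd (MulAction.injective D.z (e2'.symm.trans e1')) h1
      · norm_num
      · norm_num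
      · norm_num
      · norm_num
    | tA t =>
      show (D.m i (D.a (Sum.inr t)) + D.m j (D.a (Sum.inr t))) / 2 ≤ 1 ∧
        (D.m i (-D.a (Sum.inr t)) + D.m j (-D.a (Sum.inr t))) / 2 ≤ 1
      rw [D.m_of_fst i _ rfl, D.m_of_fst j _ rfl, hneg i _ rfl, hneg j _ rfl]
      have e1 : D.f (Sum.inl i) (D.a (Sum.inr t)) = 0 := D.S.fP_aQ i t
      have e2 : D.f (Sum.inl j) (D.a (Sum.inr t)) = 0 := D.S.fP_aQ j t
      rw [e1, e2]
      norm_num
    | tV t =>
      show (D.m i (D.S.v t) + D.m j (D.S.v t)) / 2 ≤ 1 ∧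
        (D.m i (-D.S.v t) + D.m j (-D.S.v t)) / 2 ≤ 1
      rw [D.m_of_fst i _ (D.v_fst t), D.m_of_fst j _ (D.v_fst t), hneg i _ (D.v_fst t),
        hneg j _ (D.v_fst t)]
      have e1 := abs_le.mp (D.abs_f_v i t)
      have e2 := abs_le.mp (D.abs_f_v j t)
      constructor <;> linarith [e1.1, e1.2, e2.1, e2.2]

/-- The key formula for the norm. -/
theorem key (i j : P) (h1 : j ≠ i) (h2 : j ≠ D.z • i) (v : D.V) (c : ℝ) (hc : D.q v ≤ c) :
    D.S.N (c • (D.a (Sum.inl i) + D.a (Sum.inl j)) + v) = 2 * c + (D.m i v + D.m j v) / 2 := by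
  have h3 : i ≠ D.z • j := by
    intro h
    apply h2
    rw [h, smul_smul, D.hzz, one_smul]
  have hij : (Sum.inl j : D.I) ≠ Sum.inl i := fun h => h1 (Sum.inl_injective h)
  have hij' : (Sum.inl j : D.I) ≠ D.z • Sum.inl i := fun h => h2 (Sum.inl_injective h)
  have hji : (Sum.inl i : D.I) ≠ Sum.inl j := fun h => h1 (Sum.inl_injective h).symm
  have hji' : (Sum.inl i : D.I) ≠ D.z • Sum.inl j := fun h => h3 (Sum.inl_injective h)
  have hq0 : 0 ≤ D.q v := apply_nonneg _ _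
  refine le_antisymm ?_ ?_
  · -- the upper bound
    set Q := D.q v with hQ
    set μ := (Q - D.m i v) / 2 with hμ
    set ν := (Q - D.m j v) / 2 with hν
    have hmi := D.m_le_q i v
    have hmj := D.m_le_q j v
    have hmi' := D.m_sum_nonneg i v
    have hmj' := D.m_sum_nonneg j v
    have hmi2 := D.m_le_q (D.z • i) v
    have hmj2 := D.m_le_q (D.z • j) v
    have hμ1 : μ ≤ c := by rw [hμ]; linarith
    have hν1 : ν ≤ c := by rw [hν]; linarith
    set v' := (v + μ • D.a (Sum.inl i)) + ν • D.a (Sum.inl j) with hv'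
    have hdec : c • (D.a (Sum.inl i) + D.a (Sum.inl j)) + v =
        (c - μ) • D.a (Sum.inl i) + ((c - ν) • D.a (Sum.inl j) + v') := by
      rw [hv']
      module
    have hqv' : D.q v' ≤ Q := by
      have hfst : v'.1 = v.1 := by
        show v.1 + μ • (0 : X) + ν • (0 : X) = v.1
        rw [smul_zero, smul_zero, add_zero, add_zero]
      -- the values of the coordinates
      have hf : ∀ k : D.I, (k = Sum.inl i ∧ D.f k v' = D.f k v + 2 * μ) ∨
          (k = Sum.inl j ∧ D.f k v' = D.f k v + 2 * ν) ∨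
          (k = D.z • Sum.inl i ∧ D.f k v' = D.f k v - 2 * μ) ∨
          (k = D.z • Sum.inl j ∧ D.f k v' = D.f k v - 2 * ν) ∨
          D.f k v' = D.f k v := by
        intro k
        rcases D.f_add_a (Sum.inl j) k (v + μ • D.a (Sum.inl i)) ν with
          ⟨e, he⟩ | ⟨e, he⟩ | ⟨-, -, he⟩ <;>
        rcases D.f_add_a (Sum.inl i) k v μ with ⟨e', he'⟩ | ⟨e', he'⟩ | ⟨-, -, he'⟩
        · exact absurd (e.symm.trans e') hij
        · exact absurd (e.symm.trans e') hij'
        · right; left; exact ⟨e, by rw [hv', he, he']⟩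
        · exact absurd (e'.symm.trans e) hji'
        · exact absurd (MulAction.injective D.z (e.symm.trans e')) hij
        · right; right; right; left; exact ⟨e, by rw [hv', he, he']⟩
        · left; exact ⟨e', by rw [hv', he, he']⟩
        · right; right; left; exact ⟨e', by rw [hv', he, he']⟩
        · right; right; right; right; rw [hv', he, he']
      have hzi : D.f (D.z • Sum.inl i) v = - D.f (Sum.inl i) v := v.2.2.2 (Sum.inl i)
      have hzj : D.f (D.z • Sum.inl j) v = - D.f (Sum.inl j) v := v.2.2.2 (Sum.inl j)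
      have ei := D.m_eq i v
      have ej := D.m_eq j v
      have hhi := D.h_le i v.1
      have hhj := D.h_le j v.1
      have hhi0 := D.h_nonneg i v.1
      have hhj0 := D.h_nonneg j v.1
      have hqz := D.qZ_le_q v
      rw [D.q_le_iff]
      refine ⟨by rw [hfst]; exact hqz, supC_le _ _ hq0 fun k => ?_, fun p => ?_⟩
      · show |D.f k v'| ≤ Q
        rcases hf k with ⟨e, he⟩ | ⟨e, he⟩ | ⟨e, he⟩ | ⟨e, he⟩ | he
        · rw [he, e, abs_le, hμ]; constructor <;> linarith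
        · rw [he, e, abs_le, hν]; constructor <;> linarith
        · rw [he, e, hzi, abs_le, hμ]; constructor <;> linarith
        · rw [he, e, hzj, abs_le, hν]; constructor <;> linarith
        · rw [he]; exact D.f_le k v
      · rw [D.m_eq, hfst]
        have hp := D.m_le_q p v
        rw [D.m_eq] at hp
        rcases hf (Sum.inl p) with ⟨e, he⟩ | ⟨e, he⟩ | ⟨e, he⟩ | ⟨e, he⟩ | he
        · obtain rfl : p = i := Sum.inl_injective e
          rw [he, hμ]; linarith
        · obtain rfl : p = j := Sum.inl_injective e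
          rw [he, hν]; linarith
        · obtain rfl : p = D.z • i := Sum.inl_injective e
          rw [he, hμ]; linarith
        · obtain rfl : p = D.z • j := Sum.inl_injective e
          rw [he, hν]; linarith
        · rw [he]; exact hp
    have e1 : D.S.N (D.a (Sum.inl i)) ≤ 1 := D.S.N_spk (.pt i)
    have e2 : D.S.N (D.a (Sum.inl j)) ≤ 1 := D.S.N_spk (.pt j)
    have e3 : D.S.N v' ≤ Q := (D.S.N_le v').trans hqv'
    have e4 : D.S.N ((c - μ) • D.a (Sum.inl i)) ≤ c - μ := by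
      rw [map_smul_eq_mul, Real.norm_eq_abs, abs_of_nonneg (by linarith)]
      exact mul_le_of_le_one_right (by linarith) e1
    have e5 : D.S.N ((c - ν) • D.a (Sum.inl j)) ≤ c - ν := by
      rw [map_smul_eq_mul, Real.norm_eq_abs, abs_of_nonneg (by linarith)]
      exact mul_le_of_le_one_right (by linarith) e2
    rw [hdec]
    refine (map_add_le_add _ _ _).trans ?_
    have e6 := map_add_le_add D.S.N ((c - ν) • D.a (Sum.inl j)) v'
    rw [hμ] at e4
    rw [hν] at e5 e6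
    linarith
  · -- the lower bound
    have h4 := D.half_sum_le_N i j h1 h2 (c • (D.a (Sum.inl i) + D.a (Sum.inl j)) + v)
    refine le_trans (le_of_eq ?_) h4
    have hfst : (c • (D.a (Sum.inl i) + D.a (Sum.inl j)) + v).1 = v.1 := by
      show c • ((0 : X) + 0) + v.1 = v.1
      rw [add_zero, smul_zero, zero_add]
    have e1 : D.f (Sum.inl i) (D.a (Sum.inl j)) = 0 := D.f_a_ne _ _ hij hij'
    have e2 : D.f (Sum.inl j) (D.a (Sum.inl i)) = 0 := D.f_a_ne _ _ hji hji'
    rw [D.m_eq i, D.m_eq j, D.m_eq i, D.m_eq j, hfst, map_add, map_add, map_smul, map_smul,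
      map_add, map_add, D.f_a_self, D.f_a_self, e1, e2, smul_eq_mul, smul_eq_mul]
    ring

end HData

end Pool.Agent.Comb7f333f.LPart
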