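import Pool.Agent.Lib.MP_7f333f_an.Lin.Rig
import Pool.Agent.Lib.MP_7f333f_an.Iso
import Pool.Agent.Lib.MP_7f333f_an.Reduction
import Pool.Agent.Lib.MP_7f333f_an.Neg.Coord

set_option autoImplicit false

/-!
The linear criterion: closed groups of permutations with a bounded, continuous representation on a
combinatorial space which sends a central involution to `-1` are displayable on the space.
-/

namespace Pool.Agent.Comb7f333f.LPart

open Filter Topology

section Inv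

variable {X : Type*} [NormedAddCommGroup X] [NormedSpace ℝ X] {G : Type*} [Group G]

/-- A bounded group preserves a seminorm between the norm and a multiple of it. -/
theorem exists_invNorm (π : G →* (X →ₗ[ℝ] X)) (K : ℝ) (hK : ∀ g x, ‖π g x‖ ≤ K * ‖x‖) :
    ∃ p : Seminorm ℝ X, (∀ x, ‖x‖ ≤ p x) ∧ (∀ x, p x ≤ K * ‖x‖) ∧ ∀ g x, p (π g x) = p x := by
  have hb : ∀ x, BddAbove (Set.range fun g => ‖π g x‖) := fun x =>
    ⟨K * ‖x‖, by rintro _ ⟨g, rfl⟩; exact hK g x⟩
  have hle : ∀ g x, ‖π g x‖ ≤ ⨆ g, ‖π g x‖ := fun g x => le_ciSup (hb x) g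
  refine ⟨Seminorm.of (fun x => ⨆ g, ‖π g x‖) ?_ ?_, ?_, ?_, ?_⟩
  · intro x y
    refine ciSup_le fun g => ?_
    rw [map_add]
    exact (norm_add_le _ _).trans (add_le_add (hle g x) (hle g y))
  · intro a x
    rw [Real.mul_iSup_of_nonneg (norm_nonneg a)]
    refine iSup_congr fun g => ?_
    rw [map_smul, norm_smul]
  · intro x
    have h1 := hle 1 x
    rw [map_one, Module.End.one_apply] at h1
    exact h1
  · intro x
    exact ciSup_le fun g => hK g x
  · intro g x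
    have h2 : ∀ g' : G, π g' (π g x) = π (g' * g) x := by
      intro g'
      rw [map_mul, Module.End.mul_apply]
    have h3 : (⨆ g', ‖π g' (π g x)‖) = ⨆ g', ‖π g' x‖ := by
      apply le_antisymm
      · refine ciSup_le fun g' => ?_
        rw [h2]
        exact hle _ x
      · refine ciSup_le fun g' => ?_
        have h4 : π g' x = π (g' * g⁻¹) (π g x) := by rw [h2]; simp
        rw [h4]
        exact hle _ (π g x)
    exact h3

end Inv

section Closed

variable {G : Subgroup (Equiv.Perm ℕ)}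

/-- A closed group of permutations acts as a closed group on the product of `ℕ` and a set with
open stabilisers. -/
theorem closed_prod (hG : IsClosedPerm G) {O : Type*} [MulAction G O] [hO : Nonempty O]
    (hst : ∀ o : O, ∃ F : Finset ℕ, ∀ g : G, (∀ n ∈ F, (g : Equiv.Perm ℕ) n = n) → g • o = o)
    (π : Equiv.Perm (ℕ × O)) (hπ : ∀ F : Finset (ℕ × O), ∃ g : G, ∀ p ∈ F, g • p = π p) :
    ∃ g : G, ∀ p, g • p = π p := by
  classical
  obtain ⟨o⟩ := hO
  have hsm : ∀ (g : G) (n : ℕ) (t : O), g • ((n, t) : ℕ × O) = ((g : Equiv.Perm ℕ) n, g • t) :=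
    fun _ _ _ => rfl
  have h1 : ∀ n t, (π (n, t)).1 = (π (n, o)).1 := by
    intro n t
    obtain ⟨g, hg⟩ := hπ {(n, t), (n, o)}
    rw [← hg (n, t) (by simp), ← hg (n, o) (by simp)]
    rfl
  have hinj : Function.Injective fun n => (π (n, o)).1 := by
    intro n n' h
    obtain ⟨g, hg⟩ := hπ {(n, o), (n', o)}
    simp only [← hg (n, o) (by simp), ← hg (n', o) (by simp)] at h
    exact (g : Equiv.Perm ℕ).injective h
  have hsurj : Function.Surjective fun n => (π (n, o)).1 := by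
    intro m
    refine ⟨(π.symm (m, o)).1, ?_⟩
    show (π ((π.symm (m, o)).1, o)).1 = m
    rw [← h1 _ (π.symm (m, o)).2]
    simp
  set π1 : Equiv.Perm ℕ := Equiv.ofBijective _ ⟨hinj, hsurj⟩ with hπ1
  have hπ1v : ∀ n, π1 n = (π (n, o)).1 := fun n => rfl
  have hmem : π1 ∈ G := by
    refine hG π1 fun F => ?_
    obtain ⟨g, hg⟩ := hπ (F.image fun n => (n, o))
    refine ⟨g, g.2, fun n hn => ?_⟩
    rw [hπ1v, ← hg (n, o) (Finset.mem_image_of_mem _ hn)]
    rfl
  refine ⟨⟨π1, hmem⟩, ?_⟩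
  rintro ⟨n, t⟩
  obtain ⟨F, hF⟩ := hst t
  obtain ⟨g, hg⟩ := hπ (insert (n, t) (F.image fun j => (j, o)))
  have e1 := hg (n, t) (Finset.mem_insert_self _ _)
  have e2 : ∀ j ∈ F, (g : Equiv.Perm ℕ) j = π1 j := by
    intro j hj
    rw [hπ1v, ← hg (j, o) (Finset.mem_insert_of_mem (Finset.mem_image_of_mem _ hj))]
    rfl
  have e3 : (g : Equiv.Perm ℕ) n = π1 n := by
    rw [hπ1v, ← h1 n t, ← e1]; rfl
  have e4 : ((⟨π1, hmem⟩ : G)⁻¹ * g) • t = t := by
    refine hF _ fun j hj => ?_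
    show π1⁻¹ ((g : Equiv.Perm ℕ) j) = j
    rw [e2 j hj]
    exact π1.symm_apply_apply j
  have e5 : (⟨π1, hmem⟩ : G) • t = g • t := by
    conv_lhs => rw [← e4]
    rw [smul_smul, mul_inv_cancel_left]
  rw [← e1, hsm, hsm, e5, e3]

end Closed

section Hfun

variable {X : Type*} [NormedAddCommGroup X] [NormedSpace ℝ X]
  {G : Subgroup (Equiv.Perm ℕ)} (π : G →* (X →ₗ[ℝ] X)) (q : Seminorm ℝ X)
  (hq : ∀ g x, q (π g x) = q x) (ξ : X →L[ℝ] ℝ) (hξ : ∀ x, |ξ x| ≤ q x)

/-- The sublinear function of a functional and of a point of an orbit. -/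
noncomputable def hfun {n : ℕ} (t : Orb G n) (y : X) : ℝ :=
  ⨆ g : {g : G // g • (Orb.base : Orb G n) = t}, max 0 (ξ (π (g.1)⁻¹ y))

theorem hfun_nonempty {n : ℕ} (t : Orb G n) :
    Nonempty {g : G // g • (Orb.base : Orb G n) = t} := by
  obtain ⟨g, hg⟩ := t.2
  exact ⟨⟨g, Subtype.ext (funext fun j => (hg j).symm)⟩⟩

include hq hξ

theorem hfun_term_le (g : G) (y : X) : max 0 (ξ (π g⁻¹ y)) ≤ q y := by
  refine max_le (apply_nonneg q y) ?_
  have h1 := (le_abs_self _).trans (hξ (π g⁻¹ y))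
  rwa [hq] at h1

theorem hfun_bdd {n : ℕ} (t : Orb G n) (y : X) :
    BddAbove (Set.range fun g : {g : G // g • (Orb.base : Orb G n) = t} =>
      max 0 (ξ (π (g.1)⁻¹ y))) :=
  ⟨q y, by rintro _ ⟨g, rfl⟩; exact hfun_term_le π q hq ξ hξ g.1 y⟩

theorem hfun_nonneg {n : ℕ} (t : Orb G n) (y : X) : 0 ≤ hfun π ξ t y := by
  obtain ⟨g⟩ := hfun_nonempty t
  exact (le_max_left _ _).trans (le_ciSup (hfun_bdd π q hq ξ hξ t y) g)

theorem hfun_le {n : ℕ} (t : Orb G n) (y : X) : hfun π ξ t y ≤ q y := by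
  have := hfun_nonempty t
  exact ciSup_le fun g => hfun_term_le π q hq ξ hξ g.1 y

theorem hfun_add {n : ℕ} (t : Orb G n) (y y' : X) :
    hfun π ξ t (y + y') ≤ hfun π ξ t y + hfun π ξ t y' := by
  have := hfun_nonempty t
  refine ciSup_le fun g => ?_
  have h1 := le_ciSup (hfun_bdd π q hq ξ hξ t y) g
  have h2 := le_ciSup (hfun_bdd π q hq ξ hξ t y') g
  rw [map_add, map_add]
  refine le_trans ?_ (add_le_add h1 h2)
  refine max_le (add_nonneg (le_max_left _ _) (le_max_left _ _))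
    (add_le_add (le_max_right _ _) (le_max_right _ _))

omit hq hξ in
theorem hfun_smul {n : ℕ} (t : Orb G n) (c : ℝ) (y : X) (hc : 0 ≤ c) :
    hfun π ξ t (c • y) = c * hfun π ξ t y := by
  unfold hfun
  rw [Real.mul_iSup_of_nonneg hc]
  refine iSup_congr fun g => ?_
  rw [map_smul, map_smul, smul_eq_mul, mul_max_of_nonneg _ _ hc, mul_zero]

omit hq hξ in
theorem hfun_equiv {n : ℕ} (g : G) (t : Orb G n) (y : X) :
    hfun π ξ (g • t) (π g y) = hfun π ξ t y := by
  unfold hfun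
  refine Function.Surjective.iSup_congr
    (fun k : {k : G // k • (Orb.base : Orb G n) = g • t} =>
      (⟨g⁻¹ * k.1, by rw [mul_smul, k.2, inv_smul_smul]⟩ :
        {k : G // k • (Orb.base : Orb G n) = t})) (fun k => ?_) fun k => ?_
  · exact ⟨⟨g * k.1, by rw [mul_smul, k.2]⟩, Subtype.ext (inv_mul_cancel_left _ _)⟩
  · have h1 : π (g⁻¹ * k.1)⁻¹ y = π (k.1)⁻¹ (π g y) := by
      have h2 : (g⁻¹ * k.1)⁻¹ = (k.1)⁻¹ * g := by group
      rw [h2, map_mul, Module.End.mul_apply]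
    show max 0 (ξ (π (g⁻¹ * k.1)⁻¹ y)) = max 0 (ξ (π (k.1)⁻¹ (π g y)))
    rw [h1]

/-- The function of the initial tuple is close to the positive part of the functional. -/
theorem hfun_base {n : ℕ} (y : X) (ε : ℝ)
    (hε : ∀ g : G, (∀ j : ℕ, j < n → (g : Equiv.Perm ℕ) j = j) → q (π g y - y) ≤ ε) :
    |hfun π ξ (Orb.base : Orb G n) y - max 0 (ξ y)| ≤ ε := by
  have hne := hfun_nonempty (Orb.base : Orb G n)
  have hfix : ∀ g : G, g • (Orb.base : Orb G n) = Orb.base →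
      ∀ j : ℕ, j < n → (g : Equiv.Perm ℕ) j = j := by
    intro g hg j hj
    have h1 := congrArg (fun t : Orb G n => t.1 ⟨j, hj⟩) hg
    exact h1
  have hε0 : 0 ≤ ε := (apply_nonneg q _).trans (hε 1 fun _ _ => rfl)
  rw [abs_le]
  constructor
  · have h1 := le_ciSup (hfun_bdd π q hq ξ hξ (Orb.base : Orb G n) y) ⟨1, one_smul _ _⟩
    have h2 : max 0 (ξ (π (1 : G)⁻¹ y)) = max 0 (ξ y) := by
      rw [inv_one, map_one, Module.End.one_apply]
    have h3 : max 0 (ξ y) ≤ hfun π ξ (Orb.base : Orb G n) y := h2.symm.le.trans h1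
    linarith
  · have h1 : hfun π ξ (Orb.base : Orb G n) y ≤ max 0 (ξ y) + ε := by
      refine ciSup_le fun g => ?_
      have h2 : (g.1)⁻¹ • (Orb.base : Orb G n) = Orb.base := by
        rw [inv_smul_eq_iff, g.2]
      have h3 := hε _ (hfix _ h2)
      have h4 := (le_abs_self _).trans ((hξ (π (g.1)⁻¹ y - y)).trans h3)
      rw [map_sub] at h4
      have h5 := le_max_right 0 (ξ y)
      have h6 := le_max_left 0 (ξ y)
      exact max_le (by linarith) (by linarith)
    linarith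

end Hfun

section Crit

variable {𝓕 : Set (Finset ℕ)} {X : Type*} [NormedAddCommGroup X] [NormedSpace ℝ X]
  {e : ℕ → X}

/-- The coordinate functionals separate the points. -/
theorem ef_sep (h : IsRegular 𝓕) (hX : IsCombSpace 𝓕 e) (x : X) (hx : ∀ k, ef e k x = 0) :
    x = 0 := by
  have h1 : ∀ ε > 0, ‖x‖ ≤ ε := by
    intro ε hε
    obtain ⟨a, ha⟩ := hX.dense.exists_dist_lt x (show (0 : ℝ) < ε / 2 by positivity)
    rw [dist_eq_norm] at ha
    have h2 : ‖Finsupp.linearCombination ℝ e a‖ ≤ ‖x - Finsupp.linearCombination ℝ e a‖ := by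
      conv_lhs => rw [hX.norm_eq]
      refine combNorm_le _ (norm_nonneg _) fun F hF => ?_
      refine le_trans (le_of_eq ?_) (sum_ef_le h hX hF (x - Finsupp.linearCombination ℝ e a))
      refine Finset.sum_congr rfl fun k _ => ?_
      rw [map_sub, hx, ef_emb h hX, zero_sub, abs_neg]
    have h3 : x = (x - Finsupp.linearCombination ℝ e a) + Finsupp.linearCombination ℝ e a := by
      abel
    rw [h3]
    refine (norm_add_le _ _).trans ?_
    linarith
  have h2 : ‖x‖ ≤ 0 := le_of_forall_pos_le_add fun ε hε => by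
    rw [zero_add]
    exact h1 ε hε
  exact norm_le_zero_iff.mp h2

theorem basis_ne_zero (h : IsRegular 𝓕) (hX : IsCombSpace 𝓕 e) (n : ℕ) : e n ≠ 0 := by
  intro h0
  have h1 := ef_emb h hX n (Finsupp.single n 1)
  rw [Finsupp.linearCombination_single, one_smul, h0, map_zero, Finsupp.single_eq_same] at h1
  norm_num at h1

variable [CompleteSpace X]

theorem main_lin (h : IsRegular 𝓕) (hX : IsCombSpace 𝓕 e)
    (G : Subgroup (Equiv.Perm ℕ)) (hG : IsClosedPerm G) (z : G) (hz : ∀ g, g * z = z * g)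
    (hzz : z * z = 1) (π : G →* (X →ₗ[ℝ] X)) (K : ℝ) (hK : ∀ g x, ‖π g x‖ ≤ K * ‖x‖)
    (hc : ∀ x, ∀ ε > 0, ∃ F : Finset ℕ, ∀ g : G, (∀ n ∈ F, (g : Equiv.Perm ℕ) n = n) →
      ‖π g x - x‖ < ε) (hπz : ∀ x, π z x = -x) :
    ∃ N : Seminorm ℝ X, (∃ c C : ℝ, 0 < c ∧ ∀ x, c * ‖x‖ ≤ N x ∧ N x ≤ C * ‖x‖) ∧
      ∃ Φ : G ≃* isomGroup N,
        (∀ x, ∀ ε > 0, ∃ F : Finset ℕ, ∀ g : G, (∀ n ∈ F, (g : Equiv.Perm ℕ) n = n) →
          N ((Φ g : X ≃ₗ[ℝ] X) x - x) < ε) ∧
        (∀ n, ∃ x, ∃ ε > 0, ∀ g : G, N ((Φ g : X ≃ₗ[ℝ] X) x - x) < ε →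
          (g : Equiv.Perm ℕ) n = n) := by
  classical
  obtain ⟨q, hq1, hq2, hq3⟩ := exists_invNorm π K hK
  have hK1 : 1 ≤ K := by
    have h1 := (hq1 (e 0)).trans (hq2 (e 0))
    have h2 : 0 < ‖e 0‖ := norm_pos_iff.mpr (basis_ne_zero h hX 0)
    by_contra hcon
    push Not at hcon
    nlinarith
  -- the involution moves a point
  obtain ⟨N0, hN0⟩ : ∃ N0 : ℕ, ¬ ∀ j : ℕ, j < N0 → (z : Equiv.Perm ℕ) j = j := by
    by_contra hcon
    push Not at hcon
    have hz1 : z = 1 := Subtype.ext (Equiv.ext fun j => hcon (j + 1) j (Nat.lt_succ_self j))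
    have h1 := hπz (e 0)
    rw [hz1, map_one, Module.End.one_apply] at h1
    have h2 : (2 : ℝ) • e 0 = 0 := by
      rw [two_smul]
      nth_rewrite 1 [h1]
      exact neg_add_cancel _
    rcases smul_eq_zero.mp h2 with h3 | h3
    · norm_num at h3
    · exact basis_ne_zero h hX 0 h3
  let nn : ℕ → ℕ := fun j => N0 + (Nat.unpair j).2
  let O := Σ j : ℕ, Orb G (nn j)
  let P := ℕ × O
  have hOne : Nonempty O := ⟨⟨0, Orb.base⟩⟩
  have hsmO : ∀ (g : G) (j : ℕ) (t : Orb G (nn j)), g • (⟨j, t⟩ : O) = ⟨j, g • t⟩ :=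
    fun _ _ _ => rfl
  have hsm : ∀ (g : G) (n : ℕ) (t : O), g • ((n, t) : P) = ((g : Equiv.Perm ℕ) n, g • t) :=
    fun _ _ _ => rfl
  have hstab : ∀ o : O, ∃ F : Finset ℕ, ∀ g : G,
      (∀ n ∈ F, (g : Equiv.Perm ℕ) n = n) → g • o = o := by
    rintro ⟨j, t⟩
    refine ⟨Finset.univ.image t.1, fun g hg => ?_⟩
    rw [hsmO]
    congr 1
    refine Subtype.ext (funext fun i => ?_)
    exact hg _ (Finset.mem_image_of_mem _ (Finset.mem_univ i))
  have hfree : ∀ p : P, z • p ≠ p := by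
    rintro ⟨n, j, t⟩ hp
    have h1 : z • (⟨j, t⟩ : O) = ⟨j, t⟩ := congrArg Prod.snd hp
    rw [hsmO] at h1
    have h2 : z • t = t := eq_of_heq (Sigma.mk.inj h1).2
    obtain ⟨k, hk⟩ := t.2
    apply hN0
    intro i hi
    have hi' : i < nn j := by
      show i < N0 + (Nat.unpair j).2
      omega
    have h3 : (z : Equiv.Perm ℕ) (t.1 ⟨i, hi'⟩) = t.1 ⟨i, hi'⟩ := by
      have h4 := congrArg (fun t : Orb G (nn j) => t.1 ⟨i, hi'⟩) h2
      exact h4
    rw [hk] at h3
    have h4 : (z : Equiv.Perm ℕ) ((k : Equiv.Perm ℕ) i) = (k : Equiv.Perm ℕ) ((z : Equiv.Perm ℕ) i) := by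
      have h5 := congrArg (fun g : G => (g : Equiv.Perm ℕ) i) (hz k)
      exact h5.symm
    have h6 : (k : Equiv.Perm ℕ) ((z : Equiv.Perm ℕ) i) = (k : Equiv.Perm ℕ) i := by
      rw [← h4]; exact h3
    exact (k : Equiv.Perm ℕ).injective h6
  obtain ⟨x, hx⟩ := exists_surjective_nat P
  have hξ : ∀ k (y : X), |ef e k y| ≤ q y := fun k y => (abs_ef_le h hX k y).trans (hq1 y)
  -- the sublinear functions
  let hh : P → X → ℝ := fun p y => (1 / 100 : ℝ) * hfun π (ef e (Nat.unpair p.2.1).1) p.2.2 y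
  have hhe : ∀ (m j : ℕ) (t : Orb G (nn j)) (y : X),
      hh (m, ⟨j, t⟩) y = (1 / 100 : ℝ) * hfun π (ef e (Nat.unpair j).1) t y := fun _ _ _ _ => rfl
  -- continuity for the invariant norm
  have hqc : ∀ (y : X) (ε : ℝ), 0 < ε → ∃ F : Finset ℕ, ∀ g : G,
      (∀ n ∈ F, (g : Equiv.Perm ℕ) n = n) → q (π g y - y) < ε := by
    intro y ε hε
    obtain ⟨F, hF⟩ := hc y (ε / K) (by positivity)
    refine ⟨F, fun g hg => ?_⟩
    refine (hq2 _).trans_lt ?_
    have h1 := hF g hg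
    rw [lt_div_iff₀ (by linarith)] at h1
    linarith
  -- separation
  have hsep1 : ∀ y y' : X, (∀ p, hh p y = hh p y') → ∀ k, max 0 (ef e k y) = max 0 (ef e k y') := by
    intro y y' hyy k
    have h1 : ∀ ε > 0, |max 0 (ef e k y) - max 0 (ef e k y')| ≤ ε := by
      intro ε hε
      obtain ⟨F, hF⟩ := hqc y (ε / 2) (by positivity)
      obtain ⟨F', hF'⟩ := hqc y' (ε / 2) (by positivity)
      set M := (F ∪ F').sup id + 1 with hM
      have hlt : ∀ n ∈ F ∪ F', n < M := by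
        intro n hn
        have : n ≤ (F ∪ F').sup id := Finset.le_sup (f := id) hn
        omega
      set j := Nat.pair k M with hj
      have hj1 : (Nat.unpair j).1 = k := by rw [hj, Nat.unpair_pair]
      have hj2 : nn j = N0 + M := by
        show N0 + (Nat.unpair j).2 = _
        rw [hj, Nat.unpair_pair]
      have hfix : ∀ g : G, (∀ i : ℕ, i < nn j → (g : Equiv.Perm ℕ) i = i) →
          ∀ n ∈ F ∪ F', (g : Equiv.Perm ℕ) n = n := by
        intro g hg n hn
        refine hg n ?_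
        have := hlt n hn
        omega
      have e1 := hfun_base (n := nn j) π q hq3 (ef e k) (hξ k) y (ε / 2) fun g hg =>
        (hF g fun n hn => hfix g hg n (Finset.mem_union_left _ hn)).le
      have e2 := hfun_base (n := nn j) π q hq3 (ef e k) (hξ k) y' (ε / 2) fun g hg =>
        (hF' g fun n hn => hfix g hg n (Finset.mem_union_right _ hn)).le
      have e3 := hyy (0, ⟨j, Orb.base⟩)
      rw [hhe, hhe, hj1] at e3
      have e4 : hfun π (ef e k) (Orb.base : Orb G (nn j)) y =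
          hfun π (ef e k) (Orb.base : Orb G (nn j)) y' := by linarith
      rw [e4] at e1
      rw [abs_le] at e1 e2 ⊢
      constructor <;> linarith [e1.1, e1.2, e2.1, e2.2]
    have h2 : |max 0 (ef e k y) - max 0 (ef e k y')| ≤ 0 := le_of_forall_pos_le_add fun ε hε => by
      rw [zero_add]
      exact h1 ε hε
    exact sub_eq_zero.mp (abs_nonpos_iff.mp h2)
  let D : HData G P X :=
    { z := z
      hz := hz
      hzz := hzz
      hfree := hfree
      hinf := inferInstanceAs (Infinite (ℕ × O))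
      x := x
      hx := hx
      hclosed := closed_prod hG hstab
      qZ := q
      qZ_def := fun y hy => by
        have h1 := hq1 y
        rw [hy] at h1
        exact norm_le_zero_iff.mp h1
      ρZ := π
      hρq := hq3
      hρz := hπz
      hρc := fun y ε hε => by
        obtain ⟨F, hF⟩ := hqc y ε hε
        refine ⟨F.image fun n => ((n, ⟨0, Orb.base⟩) : P), fun g hg => hF g fun n hn => ?_⟩
        have h1 := hg _ (Finset.mem_image_of_mem _ hn)
        exact congrArg Prod.fst h1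
      h := hh
      h_add := fun p y y' => by
        have h1 := hfun_add π q hq3 (ef e (Nat.unpair p.2.1).1) (hξ _) p.2.2 y y'
        show (1 / 100 : ℝ) * _ ≤ (1 / 100 : ℝ) * _ + (1 / 100 : ℝ) * _
        linarith
      h_smul := fun p c y hc => by
        show (1 / 100 : ℝ) * _ = c * ((1 / 100 : ℝ) * _)
        rw [hfun_smul π (ef e (Nat.unpair p.2.1).1) p.2.2 c y hc]
        ring
      h_nonneg := fun p y => by
        have h1 := hfun_nonneg π q hq3 (ef e (Nat.unpair p.2.1).1) (hξ _) p.2.2 y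
        show 0 ≤ (1 / 100 : ℝ) * _
        linarith
      h_le := fun p y => by
        have h1 := hfun_le π q hq3 (ef e (Nat.unpair p.2.1).1) (hξ _) p.2.2 y
        show (1 / 100 : ℝ) * _ ≤ _
        linarith
      h_equiv := fun g p y => by
        show (1 / 100 : ℝ) * _ = (1 / 100 : ℝ) * _
        have h1 := hfun_equiv π (ef e (Nat.unpair p.2.1).1) g p.2.2 y
        exact congrArg ((1 / 100 : ℝ) * ·) h1
      h_inf := fun p => by
        refine Set.infinite_of_injective_forall_mem (f := fun m : ℕ => ((m, p.2) : P))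
          (fun a b hab => congrArg Prod.fst hab) fun m y => rfl
      h_sep := fun y y' h1 h2 => by
        have e1 := hsep1 y y' h1
        have e2 := hsep1 (-y) (-y') h2
        refine sub_eq_zero.mp (ef_sep h hX _ fun k => ?_)
        have e3 := e1 k
        have e4 := e2 k
        rw [map_neg, map_neg] at e4
        have e5 : ∀ a : ℝ, a = max 0 a - max 0 (-a) := by
          intro a
          rcases le_total 0 a with ha | ha
          · rw [max_eq_right ha, max_eq_left (by linarith)]; ring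
          · rw [max_eq_left ha, max_eq_right (by linarith)]; ring
        rw [map_sub, e5 (ef e k y), e5 (ef e k y'), e3, e4, sub_self] }
  have hfreeI := D.freeI
  obtain ⟨Θ, C, hC, hΘ1, hΘ2⟩ := exists_iso (I := D.I) (z := D.z) h hX D.hzz hfreeI
  let N : Seminorm ℝ X := D.S.N.comp Θ.toLinearMap
  have hN : ∀ y, N y = D.S.N (Θ y) := fun _ => rfl
  -- the action
  let Ψ0 : G → (X ≃ₗ[ℝ] X) := fun g =>
    LinearEquiv.ofLinearMap (Θ.symm.toLinearMap.comp ((D.ρ g).comp Θ.toLinearMap))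
      (Θ.symm.toLinearMap.comp ((D.ρ g⁻¹).comp Θ.toLinearMap))
      (by
        ext y
        show Θ.symm (D.ρ g (Θ (Θ.symm (D.ρ g⁻¹ (Θ y))))) = y
        rw [Θ.apply_symm_apply, ← Module.End.mul_apply, ← map_mul, mul_inv_cancel, map_one,
          Module.End.one_apply, Θ.symm_apply_apply])
      (by
        ext y
        show Θ.symm (D.ρ g⁻¹ (Θ (Θ.symm (D.ρ g (Θ y))))) = y
        rw [Θ.apply_symm_apply, ← Module.End.mul_apply, ← map_mul, inv_mul_cancel, map_one,
          Module.End.one_apply, Θ.symm_apply_apply])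
  have hΨ0 : ∀ g y, Ψ0 g y = Θ.symm (D.ρ g (Θ y)) := fun _ _ => rfl
  have hΘΨ : ∀ g y, Θ (Ψ0 g y) = D.ρ g (Θ y) := fun g y => by
    rw [hΨ0, Θ.apply_symm_apply]
  let Ψ : G →* isomGroup N :=
    { toFun := fun g => ⟨Ψ0 g, fun y => by rw [hN, hN, hΘΨ, D.equivar.N_ρ]⟩
      map_one' := by
        apply Subtype.ext
        ext y
        show Θ.symm (D.ρ 1 (Θ y)) = y
        rw [map_one, Module.End.one_apply, Θ.symm_apply_apply]
      map_mul' := fun g g' => by
        apply Subtype.ext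
        ext y
        show Θ.symm (D.ρ (g * g') (Θ y)) = Ψ0 g (Ψ0 g' y)
        rw [hΨ0, hΘΨ, map_mul, Module.End.mul_apply] }
  have hΨ : ∀ g y, ((Ψ g : isomGroup N) : X ≃ₗ[ℝ] X) y = Θ.symm (D.ρ g (Θ y)) := fun _ _ => rfl
  have hfix : ∀ (g : G) (n : ℕ), g • ((n, ⟨0, Orb.base⟩) : P) = (n, ⟨0, Orb.base⟩) →
      (g : Equiv.Perm ℕ) n = n := fun g n hg => congrArg Prod.fst hg
  have hinj : Function.Injective Ψ := by
    rw [injective_iff_map_eq_one]
    intro g hg
    apply Subtype.ext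
    apply Equiv.ext
    intro n
    refine hfix g n (D.ρ_injective g (fun v => ?_) _)
    have h1 : Θ.symm (D.ρ g (Θ (Θ.symm v))) = Θ.symm v := by
      rw [← hΨ, hg]; rfl
    rw [Θ.apply_symm_apply] at h1
    exact Θ.symm.injective h1
  have hsurj : Function.Surjective Ψ := by
    rintro ⟨T, hT⟩
    have hT' : ∀ y, N (T y) = N y := hT
    obtain ⟨g, hg⟩ := (D.isom_iff ((Θ.symm.trans T).trans Θ)).mp (fun v => by
      show D.S.N (Θ (T (Θ.symm v))) = D.S.N v
      rw [← hN, hT', hN, Θ.apply_symm_apply])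
    refine ⟨g, Subtype.ext (LinearEquiv.ext fun y => ?_)⟩
    rw [hΨ, ← hg]
    show Θ.symm (Θ (T (Θ.symm (Θ y)))) = T y
    rw [Θ.symm_apply_apply, Θ.symm_apply_apply]
  refine ⟨N, ⟨1 / (6 * C), (2 * K + 1) * C, by positivity, fun y => ⟨?_, ?_⟩⟩,
    MulEquiv.ofBijective Ψ ⟨hinj, hsurj⟩, ?_, ?_⟩
  · have h1 := hΘ2 y
    have h2 : ‖(Θ y).1‖ ≤ D.q (Θ y) := (hq1 _).trans (D.qZ_le_q (Θ y))
    have h3 : supC D.I D.z (Θ y).2 ≤ D.q (Θ y) := D.supC_le_q (Θ y)
    have h4 : D.q (Θ y) ≤ 3 * N y := D.S.q_le (Θ y)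
    rw [div_mul_eq_mul_div, div_le_iff₀ (by positivity), one_mul]
    calc ‖y‖ ≤ C * (‖(Θ y).1‖ + supC D.I D.z (Θ y).2) := h1
      _ ≤ C * (3 * N y + 3 * N y) :=
          mul_le_mul_of_nonneg_left (add_le_add (h2.trans h4) (h3.trans h4)) hC.le
      _ = N y * (6 * C) := by ring
  · have h0 := norm_nonneg y
    refine (D.S.N_le (Θ y)).trans ((D.q_le_add (Θ y)).trans ?_)
    obtain ⟨h1, h2⟩ := hΘ1 y
    have h3 : q (Θ y).1 ≤ K * (C * ‖y‖) :=
      (hq2 _).trans (mul_le_mul_of_nonneg_left h1 (by linarith))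
    show 2 * q (Θ y).1 + supC D.I D.z (Θ y).2 ≤ _
    nlinarith
  · intro y ε hε
    obtain ⟨F', hF'⟩ := D.cont (Θ y) ε hε
    have hstab' := hstab
    choose Fo hFo using hstab'
    refine ⟨F'.biUnion fun p => insert p.1 (Fo p.2), fun g hg => ?_⟩
    have h1 : ∀ p ∈ F', g • p = p := by
      rintro ⟨n, t⟩ hp
      have e1 : (g : Equiv.Perm ℕ) n = n := hg n (Finset.mem_biUnion.mpr
        ⟨(n, t), hp, Finset.mem_insert_self _ _⟩)
      have e2 : g • t = t := hFo t g fun j hj => hg _ (Finset.mem_biUnion.mpr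
        ⟨(n, t), hp, Finset.mem_insert_of_mem hj⟩)
      rw [hsm, e1, e2]
    have h2 := hF' g h1
    show D.S.N (Θ (Ψ0 g y - y)) < ε
    rw [map_sub, hΘΨ]
    exact h2
  · intro n
    refine ⟨Θ.symm (D.S.aP (n, ⟨0, Orb.base⟩)), 1 / 25, by norm_num, fun g hg => ?_⟩
    refine hfix g n (D.equivar.fixes_of_close g _ ?_)
    have h2 : D.S.N (Θ (Ψ0 g (Θ.symm (D.S.aP (n, ⟨0, Orb.base⟩))) -
        Θ.symm (D.S.aP (n, ⟨0, Orb.base⟩)))) < 1 / 25 := hg
    rw [map_sub, hΘΨ, Θ.apply_symm_apply] at h2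
    exact h2

end Crit

end Pool.Agent.Comb7f333f.LPart
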