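import Pool.Agent.Lib.MP_7f333f_an.Lin.Crit
import Pool.Agent.Lib.MP_7f333f_an.Tame.Transfer

set_option autoImplicit false

/-!
Displayable groups have odd bounded representations; finite-dimensional representations give
bounded representations on the combinatorial spaces.
-/

namespace Pool.Agent.Comb7f333f.LPart

open Equiv

section Nec

variable {X : Type*} [NormedAddCommGroup X] [NormedSpace ℝ X]

/-- The representation given by an isomorphism with an isometry group. -/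
theorem oddRep_of_disp {H : Type*} [Group H] (N : Seminorm ℝ X)
    (hN : ∃ c C : ℝ, 0 < c ∧ ∀ x, c * ‖x‖ ≤ N x ∧ N x ≤ C * ‖x‖) (Φ : H ≃* isomGroup N) :
    ∃ z : H, (∀ g : H, g * z = z * g) ∧ z * z = 1 ∧ ∃ π : H →* (X →ₗ[ℝ] X),
      (∃ K : ℝ, ∀ g x, ‖π g x‖ ≤ K * ‖x‖) ∧ (∀ x, π z x = -x) ∧
        ∀ g x, π g x = (Φ g : X ≃ₗ[ℝ] X) x := by
  obtain ⟨c, C, hc, hN⟩ := hN
  set ν : isomGroup N := ⟨LinearEquiv.neg ℝ, fun x => by
    rw [LinearEquiv.neg_apply, map_neg_eq_map]⟩ with hν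
  have hνc : ∀ g : isomGroup N, g * ν = ν * g := by
    intro g
    refine Subtype.ext (LinearEquiv.ext fun x => ?_)
    show (g : X ≃ₗ[ℝ] X) (-x) = -((g : X ≃ₗ[ℝ] X) x)
    rw [map_neg]
  have hνν : ν * ν = 1 := by
    refine Subtype.ext (LinearEquiv.ext fun x => ?_)
    show -(-x) = x
    rw [neg_neg]
  let π : H →* (X →ₗ[ℝ] X) :=
    { toFun := fun g => (Φ g : X ≃ₗ[ℝ] X).toLinearMap
      map_one' := by
        ext x
        show (Φ 1 : X ≃ₗ[ℝ] X) x = x
        rw [map_one]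
        rfl
      map_mul' := fun g h => by
        ext x
        show (Φ (g * h) : X ≃ₗ[ℝ] X) x = (Φ g : X ≃ₗ[ℝ] X) ((Φ h : X ≃ₗ[ℝ] X) x)
        rw [map_mul]
        rfl }
  refine ⟨Φ.symm ν, fun g => ?_, ?_, π, ⟨C / c, fun g x => ?_⟩, fun x => ?_, fun g x => rfl⟩
  · apply Φ.injective
    rw [map_mul, map_mul, MulEquiv.apply_symm_apply, hνc]
  · apply Φ.injective
    rw [map_mul, MulEquiv.apply_symm_apply, hνν, map_one]
  · show ‖(Φ g : X ≃ₗ[ℝ] X) x‖ ≤ _
    have h1 : N ((Φ g : X ≃ₗ[ℝ] X) x) = N x := (Φ g).2 x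
    have h2 := (hN ((Φ g : X ≃ₗ[ℝ] X) x)).1
    have h3 := (hN x).2
    rw [div_mul_eq_mul_div, le_div_iff₀ hc]
    linarith
  · show (Φ (Φ.symm ν) : X ≃ₗ[ℝ] X) x = -x
    rw [MulEquiv.apply_symm_apply]
    rfl

/-- The central element is not trivial if the space is not. -/
theorem ne_one_of_odd {H : Type*} [Group H] [Nontrivial X] (π : H →* (X →ₗ[ℝ] X)) (z : H)
    (h : ∀ x, π z x = -x) : z ≠ 1 := by
  rintro rfl
  obtain ⟨x, hx⟩ := exists_ne (0 : X)
  have h1 := h x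
  rw [map_one, Module.End.one_apply] at h1
  have h2 : (2 : ℝ) • x = 0 := by
    rw [two_smul]
    nth_rewrite 1 [h1]
    exact neg_add_cancel _
  rcases smul_eq_zero.mp h2 with h3 | h3
  · norm_num at h3
  · exact hx h3

end Nec

section Transport

variable {X Y : Type*} [NormedAddCommGroup X] [NormedSpace ℝ X] [NormedAddCommGroup Y]
  [NormedSpace ℝ Y]

/-- Transport of bounded representations. -/
theorem transport_rep {G : Type*} [Group G] (T : X ≃L[ℝ] Y) (π : G →* (Y →ₗ[ℝ] Y)) :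
    ∃ π' : G →* (X →ₗ[ℝ] X), (∀ g x, π' g x = T.symm (π g (T x))) ∧
      ∃ A B : ℝ, 0 ≤ A ∧ 0 ≤ B ∧ (∀ y, ‖T.symm y‖ ≤ A * ‖y‖) ∧ ∀ x, ‖T x‖ ≤ B * ‖x‖ := by
  let π' : G →* (X →ₗ[ℝ] X) :=
    { toFun := fun g => T.symm.toLinearEquiv.toLinearMap.comp
        ((π g).comp T.toLinearEquiv.toLinearMap)
      map_one' := by
        ext x
        show T.symm (π 1 (T x)) = x
        rw [map_one, Module.End.one_apply, T.symm_apply_apply]
      map_mul' := fun g h => by
        ext x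
        show T.symm (π (g * h) (T x)) = T.symm (π g (T (T.symm (π h (T x)))))
        rw [T.apply_symm_apply, map_mul, Module.End.mul_apply] }
  exact ⟨π', fun _ _ => rfl, _, _, norm_nonneg _, norm_nonneg _,
    fun y => (T.symm : Y →L[ℝ] X).le_opNorm y, fun x => (T : X →L[ℝ] Y).le_opNorm x⟩

end Transport

end Pool.Agent.Comb7f333f.LPart
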