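import Pool.Agent.Lib.MP_7f333f_an.Lin.Core

set_option autoImplicit false

/-!
The isometries of the spike norm of a linear representation are exactly the elements of the group.
-/

namespace Pool.Agent.Comb7f333f.LPart

open Filter Topology

namespace HData

variable {G : Type*} [Group G] {P : Type*} [MulAction G P] {X : Type*} [AddCommGroup X]
    [Module ℝ X] (D : HData G P X)

/-- An isometry agrees with an element of the group on the spikes. -/
theorem exists_elt (T : D.V ≃ₗ[ℝ] D.V) (hT : ∀ v, D.S.N (T v) = D.S.N v) :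
    ∃ g : G, ∀ i : D.I, T (D.a i) = D.ρ g (D.a i) := by
  obtain ⟨π, τ, hπ, hτ⟩ := D.S.structure_isom T hT
  obtain ⟨π', τ', hπ', hτ'⟩ := D.S.structure_isom T.symm (D.S.symm_isom T hT)
  have hinj : ∀ p p', D.S.aP p = D.S.aP p' → p = p' := by
    intro p p' h
    have h1 := D.S.spk_injective (a₁ := .pt p) (a₂ := .pt p') h
    injection h1
  have hl : ∀ p, π' (π p) = p := by
    intro p
    apply hinj
    rw [← hπ', ← hπ, LinearEquiv.symm_apply_apply]
  have hr : ∀ p, π (π' p) = p := by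
    intro p
    apply hinj
    rw [← hπ, ← hπ', LinearEquiv.apply_symm_apply]
  obtain ⟨g, hg⟩ := D.cod ⟨π, π', hl, hr⟩ fun t => ⟨τ t, (hτ t).2.1, (hτ t).2.2.1⟩
  change ∀ p, π p = g • p at hg
  have hτg : ∀ t, τ t = g • t := by
    intro t
    have h1 : (τ t).len = t.len := (hτ t).2.1
    have h2 : ∀ j ≤ t.len, (τ t).ent j = π (t.ent j) := (hτ t).2.2.1
    refine Tup.ext' _ _ (by rw [h1, Tup.len_smul]) fun j hj => ?_
    rw [h1] at hj
    rw [h2 j hj, Tup.ent_smul, hg]
  refine ⟨g, fun i => ?_⟩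
  cases i with
  | inl p =>
    have h1 : T (D.a (Sum.inl p)) = D.a (Sum.inl (π p)) := hπ p
    rw [h1, D.ρ_a, Sum.smul_inl, hg]
  | inr t =>
    have h1 : T (D.a (Sum.inr t)) = D.a (Sum.inr (τ t)) := (hτ t).1
    rw [h1, D.ρ_a, Sum.smul_inr, hτg]

/-- An isometry which fixes the spikes fixes all the vectors of the second factor. -/
theorem fix_snd (T : D.V →ₗ[ℝ] D.V) (hT : ∀ v, D.S.N (T v) = D.S.N v)
    (h : ∀ i : D.I, T (D.a i) = D.a i) (f : oddC0 D.I D.z) : T ((0 : X), f) = ((0 : X), f) := by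
  have hspan : ∀ y ∈ Submodule.span ℝ (Set.range (bmp (I := D.I) D.z D.hzz)),
      T ((0 : X), y) = ((0 : X), y) := by
    intro y hy
    induction hy using Submodule.span_induction with
    | mem y hy =>
      obtain ⟨i, rfl⟩ := hy
      exact h i
    | zero => exact map_zero T
    | add a b _ _ ha hb =>
      have e : (((0 : X), a + b) : D.V) = ((0 : X), a) + ((0 : X), b) := by simp
      rw [e, map_add, ha, hb]
    | smul c a _ ha =>
      have e : (((0 : X), c • a) : D.V) = c • ((0 : X), a) := by simp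
      rw [e, map_smul, ha]
  have h0 : D.S.N (T ((0 : X), f) - ((0 : X), f)) = 0 := by
    refine le_antisymm (le_of_forall_pos_le_add fun ε hε => ?_) (apply_nonneg _ _)
    obtain ⟨y, hy, hfy⟩ := bmp_dense D.hzz D.freeI f (ε / 2) (by positivity)
    have e : (((0 : X), f - y) : D.V) = ((0 : X), f) - ((0 : X), y) := by simp
    have h1 : T ((0 : X), f) - ((0 : X), f) = T ((0 : X), f - y) - ((0 : X), f - y) := by
      rw [e, map_sub, hspan y hy]; abel
    rw [h1, zero_add]
    refine (map_sub_le_add _ _ _).trans ?_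
    rw [hT]
    have h2 := (D.S.N_le ((0 : X), f - y)).trans (D.q_inr_le (f - y))
    linarith
  exact sub_eq_zero.mp (D.S.N_def _ h0)

theorem exists_unrelated (i : P) : ∃ j k : P, (j ≠ i ∧ j ≠ D.z • i) ∧ (k ≠ i ∧ k ≠ D.z • i) ∧
    (k ≠ j ∧ k ≠ D.z • j) := by
  have := D.hinf
  obtain ⟨j, hj⟩ := Set.Finite.exists_notMem (s := ({i, D.z • i} : Set P)) (by simp)
  obtain ⟨k, hk⟩ := Set.Finite.exists_notMem (s := ({i, D.z • i, j, D.z • j} : Set P)) (by simp)
  simp only [Set.mem_insert_iff, Set.mem_singleton_iff, not_or] at hj hk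
  exact ⟨j, k, ⟨hj.1, hj.2⟩, ⟨hk.1, hk.2.1⟩, ⟨hk.2.2.1, hk.2.2.2⟩⟩

/-- An isometry which fixes the spikes preserves the sublinear functions. -/
theorem m_eq_of_fix (T : D.V →ₗ[ℝ] D.V) (hT : ∀ v, D.S.N (T v) = D.S.N v)
    (h : ∀ i : D.I, T (D.a i) = D.a i) (i : P) (v : D.V) : D.m i (T v) = D.m i v := by
  have key2 : ∀ i j : P, j ≠ i → j ≠ D.z • i → D.m i (T v) + D.m j (T v) = D.m i v + D.m j v := by
    intro i j h1 h2
    have e1 := D.key i j h1 h2 v (max (D.q v) (D.q (T v))) (le_max_left _ _)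
    have e2 := D.key i j h1 h2 (T v) (max (D.q v) (D.q (T v))) (le_max_right _ _)
    have e3 := hT (max (D.q v) (D.q (T v)) • (D.a (Sum.inl i) + D.a (Sum.inl j)) + v)
    have e4 : T (max (D.q v) (D.q (T v)) • (D.a (Sum.inl i) + D.a (Sum.inl j)) + v) =
        max (D.q v) (D.q (T v)) • (D.a (Sum.inl i) + D.a (Sum.inl j)) + T v := by
      rw [T.map_add, T.map_smul, T.map_add, h, h]
    rw [e4, e1, e2] at e3
    linarith
  obtain ⟨j, k, hj, hk, hjk⟩ := D.exists_unrelated i
  have e1 := key2 i j hj.1 hj.2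
  have e2 := key2 i k hk.1 hk.2
  have e3 := key2 j k hjk.1 hjk.2
  linarith

/-- An isometry which fixes the spikes is the identity. -/
theorem eq_of_fix (T : D.V →ₗ[ℝ] D.V) (hT : ∀ v, D.S.N (T v) = D.S.N v)
    (h : ∀ i : D.I, T (D.a i) = D.a i) (v : D.V) : T v = v := by
  have hm := D.m_eq_of_fix T hT h
  -- the sublinear functions of the first component
  have hh : ∀ (v : D.V) (p : P), D.h p (T v).1 = D.h p v.1 := by
    intro v p
    set d := T v - v with hd
    have h1 : ∀ p' : P, D.f (Sum.inl p') d = D.h p' v.1 - D.h p' (T v).1 := by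
      intro p'
      have e1 := hm p' v
      rw [D.m_eq, D.m_eq] at e1
      rw [hd, map_sub]
      linarith
    by_contra hne
    set c := D.h p v.1 - D.h p (T v).1 with hc
    have hc0 : c ≠ 0 := fun h0 => hne (by linarith)
    have hfin : {i : D.I | ¬ |d.2.1 i| < |c|}.Finite := by
      have ht : Tendsto (fun i => |d.2.1 i|) cofinite (𝓝 0) := by simpa using d.2.2.1.abs
      exact ht.eventually (gt_mem_nhds (abs_pos.mpr hc0))
    refine D.h_inf p ((hfin.preimage (Sum.inl_injective.injOn (s := Set.univ)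
      |>.mono (Set.subset_univ _))).subset fun p' hp' => ?_)
    have e1 : D.f (Sum.inl p') d = c := by
      rw [h1 p', hc, hp', hp']
    show ¬ |D.f (Sum.inl p') d| < |c|
    rw [e1]
    exact lt_irrefl _
  have hfst : (T v).1 = v.1 := by
    refine D.h_sep _ _ (hh v) fun p => ?_
    have e1 := hh (-v) p
    rw [map_neg] at e1
    exact e1
  -- the second component
  set d := (T v).2 - v.2 with hd
  have hTv : T v = v + ((0 : X), d) := by
    refine Prod.ext ?_ ?_
    · show (T v).1 = v.1 + 0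
      rw [hfst, add_zero]
    · show (T v).2 = v.2 + d
      rw [hd]; abel
  have hpow : ∀ n : ℕ, D.S.N (v + (n : ℝ) • ((0 : X), d)) = D.S.N v := by
    intro n
    induction n with
    | zero => rw [Nat.cast_zero, zero_smul, add_zero]
    | succ n ih =>
      have e1 : v + ((n + 1 : ℕ) : ℝ) • (((0 : X), d) : D.V) =
          T (v + (n : ℝ) • ((0 : X), d)) := by
        rw [map_add, map_smul, D.fix_snd T hT h, hTv]
        push_cast
        module
      rw [e1, hT, ih]
  have hd0 : D.S.N ((0 : X), d) = 0 := by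
    refine le_antisymm ?_ (apply_nonneg _ _)
    by_contra hcon
    push Not at hcon
    obtain ⟨n, hn⟩ := exists_nat_gt (2 * D.S.N v / D.S.N ((0 : X), d))
    rw [div_lt_iff₀ hcon] at hn
    have e1 : (n : ℝ) • (((0 : X), d) : D.V) = (v + (n : ℝ) • ((0 : X), d)) - v := by abel
    have e2 : D.S.N ((n : ℝ) • ((0 : X), d)) ≤ D.S.N v + D.S.N v := by
      rw [e1]
      refine (map_sub_le_add _ _ _).trans ?_
      rw [hpow]
    rw [map_smul_eq_mul, Real.norm_eq_abs, abs_of_nonneg (Nat.cast_nonneg n)] at e2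
    linarith
  rw [hTv, D.S.N_def _ hd0, add_zero]

/-- The main property of the new norm. -/
theorem isom_iff (T : D.V ≃ₗ[ℝ] D.V) : (∀ v, D.S.N (T v) = D.S.N v) ↔
    ∃ g : G, ∀ v, T v = D.ρ g v := by
  constructor
  · intro hT
    obtain ⟨g, hg⟩ := D.exists_elt T hT
    refine ⟨g, fun v => ?_⟩
    have h1 : ∀ (g : G) (v : D.V), D.ρ g⁻¹ (D.ρ g v) = v := by
      intro g v
      rw [← Module.End.mul_apply, ← map_mul, inv_mul_cancel, map_one, Module.End.one_apply]
    have h2 := D.eq_of_fix ((D.ρ g⁻¹).comp T.toLinearMap) (fun v => by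
      show D.S.N (D.ρ g⁻¹ (T v)) = _
      rw [D.equivar.N_ρ, hT]) (fun i => by
      show D.ρ g⁻¹ (T (D.a i)) = _
      rw [hg, h1]) v
    have h3 : D.ρ g⁻¹ (T v) = v := h2
    have h4 := h1 g⁻¹ (T v)
    rw [inv_inv, h3] at h4
    exact h4.symm
  · rintro ⟨g, hg⟩ v
    rw [hg, D.equivar.N_ρ]

theorem ρ_injective (g : G) (h : ∀ v, D.ρ g v = v) (p : P) : g • p = p := by
  refine D.equivar.fixes_of_close g p ?_
  rw [h, sub_self, map_zero]; norm_num

/-- The action is continuous. -/
theorem cont (v : D.V) (ε : ℝ) (hε : 0 < ε) : ∃ F : Finset P, ∀ g : G,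
    (∀ p ∈ F, g • p = p) → D.S.N (D.ρ g v - v) < ε := by
  classical
  obtain ⟨F1, hF1⟩ := D.hρc v.1 (ε / 8) (by positivity)
  have hI : ∀ i : D.I, ∃ F : Finset P, ∀ g : G, (∀ p ∈ F, g • p = p) → g • i = i := by
    intro i
    cases i with
    | inl p =>
      exact ⟨{p}, fun g hg => by rw [Sum.smul_inl, hg p (Finset.mem_singleton_self p)]⟩
    | inr t =>
      refine ⟨(Finset.range (t.len + 1)).image t.ent, fun g hg => ?_⟩
      rw [Sum.smul_inr]
      congr 1
      refine Tup.ext' _ _ (Tup.len_smul g t) fun j hj => ?_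
      rw [Tup.len_smul] at hj
      rw [Tup.ent_smul]
      exact hg _ (Finset.mem_image_of_mem _ (by simpa [Nat.lt_succ_iff] using hj))
  obtain ⟨y, hy, hvy⟩ := bmp_dense D.hzz D.freeI v.2 (ε / 8) (by positivity)
  have hspan : ∀ y ∈ Submodule.span ℝ (Set.range (bmp (I := D.I) D.z D.hzz)),
      ∃ F : Finset P, ∀ g : G, (∀ p ∈ F, g • p = p) → actC D.hz g y = y := by
    intro y hy
    induction hy using Submodule.span_induction with
    | mem y hy =>
      obtain ⟨i, rfl⟩ := hy
      obtain ⟨F, hF⟩ := hI i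
      exact ⟨F, fun g hg => by rw [actC_bmp, hF g hg]⟩
    | zero => exact ⟨∅, fun g _ => by simp⟩
    | add a b _ _ ha hb =>
      obtain ⟨F, hF⟩ := ha
      obtain ⟨F', hF'⟩ := hb
      exact ⟨F ∪ F', fun g hg => by
        rw [map_add, hF g fun p hp => hg p (Finset.mem_union_left _ hp),
          hF' g fun p hp => hg p (Finset.mem_union_right _ hp)]⟩
    | smul c a _ ha =>
      obtain ⟨F, hF⟩ := ha
      exact ⟨F, fun g hg => by rw [map_smul, hF g hg]⟩
  obtain ⟨F2, hF2⟩ := hspan y hy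
  refine ⟨F1 ∪ F2, fun g hg => ?_⟩
  have h1 := hF1 g fun p hp => hg p (Finset.mem_union_left _ hp)
  have h2 := hF2 g fun p hp => hg p (Finset.mem_union_right _ hp)
  refine ((D.S.N_le _).trans (D.q_le_add _)).trans_lt ?_
  have e1 : (D.ρ g v - v).1 = D.ρZ g v.1 - v.1 := rfl
  have e2 : (D.ρ g v - v).2 = actC D.hz g (v.2 - y) - (v.2 - y) := by
    show actC D.hz g v.2 - v.2 = _
    rw [map_sub, h2]; abel
  have e3 : supC D.I D.z (actC D.hz g (v.2 - y) - (v.2 - y)) ≤ ε / 8 + ε / 8 := by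
    refine (map_sub_le_add _ _ _).trans ?_
    rw [supC_actC]
    exact add_le_add hvy.le hvy.le
  rw [e1, e2]
  linarith

end HData

end Pool.Agent.Comb7f333f.LPart
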